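import Pool.Agent.helper84.DM.Defs
import Pool.Agent.helper30.LD.J0

/-!
DM project (MP_4467b5_nt), module ZZ: zeros of zeta off the real axis, symmetry, finiteness.
-/

set_option autoImplicit false

open Complex Metric MeasureTheory

namespace Pool.Agent.helper84.DM

theorem ZZ_zeta_one_sub (s : ℂ) (hs : 0 < s.re) (h1 : s ≠ 1) :
    riemannZeta (1 - s) = X s * riemannZeta s := by
  rw [riemannZeta_one_sub _ h1, X]
  intro n h
  rw [h] at hs
  simp at hs
  have : (0 : ℝ) ≤ n := Nat.cast_nonneg n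
  linarith

theorem ZZ_X_ne_zero {s : ℂ} (hs : 0 < s.re) (him : s.im ≠ 0) : X s ≠ 0 := by
  unfold X
  have hpi : (2 * (Real.pi : ℂ)) ≠ 0 := by
    simp [Real.pi_ne_zero]
  refine mul_ne_zero (mul_ne_zero (mul_ne_zero two_ne_zero ?_) ?_) ?_
  · intro h
    rw [cpow_eq_zero_iff] at h
    exact hpi h.1
  · exact Complex.Gamma_ne_zero_of_re_pos hs
  · rw [Complex.cos_ne_zero_iff]
    intro k hk
    have h2 := congrArg Complex.im hk
    have e1 : ((Real.pi : ℂ) * s / 2).im = Real.pi * s.im / 2 := by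
      rw [show (Real.pi : ℂ) * s / 2 = ((Real.pi / 2 : ℝ) : ℂ) * s by push_cast; ring]
      rw [Complex.im_ofReal_mul]
      ring
    have e2 : ((2 * (k : ℂ) + 1) * Real.pi / 2).im = 0 := by
      rw [show (2 * (k : ℂ) + 1) * Real.pi / 2 = (((2 * (k : ℝ) + 1) * Real.pi / 2 : ℝ) : ℂ) by
        push_cast; ring]
      exact Complex.ofReal_im _
    rw [e1, e2] at h2
    have hp := Real.pi_ne_zero
    have : Real.pi * s.im = 0 := by linarith
    rcases mul_eq_zero.mp this with h | h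
    · exact hp h
    · exact him h

theorem zero_re {ρ : ℂ} (h : riemannZeta ρ = 0) (him : ρ.im ≠ 0) : 0 < ρ.re ∧ ρ.re < 1 := by
  constructor
  · by_contra hc
    push Not at hc
    have hs : 0 < (1 - ρ).re := by simp; linarith
    have h1 : (1 - ρ) ≠ 1 := by
      intro h2
      have := congrArg Complex.im h2
      simp at this
      exact him this
    have him' : (1 - ρ).im ≠ 0 := by simpa using him
    have hf := ZZ_zeta_one_sub (1 - ρ) hs h1
    rw [sub_sub_cancel, h] at hf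
    rcases mul_eq_zero.mp hf.symm with h3 | h3
    · exact ZZ_X_ne_zero hs him' h3
    · refine riemannZeta_ne_zero_of_one_le_re ?_ h3
      simp; linarith
  · by_contra hc
    push Not at hc
    exact riemannZeta_ne_zero_of_one_le_re hc h

theorem ZZ_finite {t H : ℝ} (ht : 0 ≤ t) : (win t H).Finite := by
  have hb : Bornology.IsBounded {z : ℂ | z.re ∈ Set.Icc (0 : ℝ) 1 ∧ z.im ∈ Set.Icc (0 : ℝ) (t + H)} := by
    have := Bornology.IsBounded.reProdIm (Metric.isBounded_Icc (0 : ℝ) 1)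
      (Metric.isBounded_Icc (0 : ℝ) (t + H))
    exact this
  refine (Pool.Agent.helper6.LD.zeros_finite hb).subset ?_
  rintro ρ ⟨h0, h1, h2⟩
  have him : ρ.im ≠ 0 := by
    have : 0 < ρ.im := lt_of_le_of_lt ht h1
    exact this.ne'
  have hre := zero_re h0 him
  exact ⟨⟨⟨hre.1.le, hre.2.le⟩, ⟨(lt_of_le_of_lt ht h1).le, h2⟩⟩, h0⟩

theorem mem_zs {t H : ℝ} (ht : 0 ≤ t) {ρ : ℂ} : ρ ∈ zs t H ↔ ρ ∈ win t H := by
  unfold zs
  rw [dif_pos (ZZ_finite ht)]
  exact Set.Finite.mem_toFinset _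

theorem ZZ_conj_analytic {g : ℂ → ℂ} {z : ℂ} (hg : AnalyticAt ℂ g z) :
    AnalyticAt ℂ (fun w => (starRingEnd ℂ) (g ((starRingEnd ℂ) w))) ((starRingEnd ℂ) z) := by
  have h1 : ∀ᶠ w in nhds z, DifferentiableAt ℂ g w := by
    filter_upwards [hg.eventually_analyticAt] with w hw using hw.differentiableAt
  rw [Complex.analyticAt_iff_eventually_differentiableAt]
  have hcont : Filter.Tendsto (fun w : ℂ => (starRingEnd ℂ) w) (nhds ((starRingEnd ℂ) z)) (nhds z) := by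
    have := (Complex.continuous_conj.tendsto ((starRingEnd ℂ) z))
    rwa [Complex.conj_conj] at this
  filter_upwards [hcont.eventually h1] with w hw
  have := hw.conj_conj
  rw [Complex.conj_conj] at this
  exact this

theorem ZZ_order_conj {ρ : ℂ} (h1 : AnalyticAt ℂ riemannZeta ρ)
    (h2 : AnalyticAt ℂ riemannZeta ((starRingEnd ℂ) ρ)) :
    analyticOrderAt riemannZeta ρ ≤ analyticOrderAt riemannZeta ((starRingEnd ℂ) ρ) := by
  have key : ∀ n : ℕ, (n : ℕ∞) ≤ analyticOrderAt riemannZeta ρ →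
      (n : ℕ∞) ≤ analyticOrderAt riemannZeta ((starRingEnd ℂ) ρ) := by
    intro n hn
    rw [natCast_le_analyticOrderAt h1] at hn
    obtain ⟨g, hg, hev⟩ := hn
    rw [natCast_le_analyticOrderAt h2]
    refine ⟨_, ZZ_conj_analytic hg, ?_⟩
    have hcont : Filter.Tendsto (fun w : ℂ => (starRingEnd ℂ) w) (nhds ((starRingEnd ℂ) ρ)) (nhds ρ) := by
      have := (Complex.continuous_conj.tendsto ((starRingEnd ℂ) ρ))
      rwa [Complex.conj_conj] at this
    filter_upwards [hcont.eventually hev] with w hw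
    have e : riemannZeta w = (starRingEnd ℂ) (riemannZeta ((starRingEnd ℂ) w)) := by
      rw [riemannZeta_conj, Complex.conj_conj]
    rw [e, hw]
    simp
  exact ENat.forall_natCast_le_iff_le.mp key

theorem ZZ_mult_conj {ρ : ℂ} (h : riemannZeta ρ = 0) :
    analyticOrderAt riemannZeta ((starRingEnd ℂ) ρ) = analyticOrderAt riemannZeta ρ := by
  have h' : riemannZeta ((starRingEnd ℂ) ρ) = 0 := by rw [riemannZeta_conj, h, map_zero]
  have a1 := Pool.Agent.helper6.LD.h30_analyticAt h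
  have a2 := Pool.Agent.helper6.LD.h30_analyticAt h'
  apply le_antisymm
  · have := ZZ_order_conj (ρ := (starRingEnd ℂ) ρ) a2 (by rw [Complex.conj_conj]; exact a1)
    rwa [Complex.conj_conj] at this
  · exact ZZ_order_conj a1 a2

theorem ZZ_X_analytic {s : ℂ} (hs : 0 < s.re) : AnalyticAt ℂ X s := by
  rw [Complex.analyticAt_iff_eventually_differentiableAt]
  have ho : IsOpen {z : ℂ | 0 < z.re} := isOpen_lt continuous_const Complex.continuous_re
  filter_upwards [ho.mem_nhds hs] with z hz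
  have hz' : 0 < z.re := hz
  unfold X
  have hpi : (2 * (Real.pi : ℂ)) ≠ 0 := by
    simp [Real.pi_ne_zero]
  have hG : DifferentiableAt ℂ Complex.Gamma z := by
    apply Complex.differentiableAt_Gamma
    intro m hm
    rw [hm] at hz'
    simp at hz'
    have : (0 : ℝ) ≤ m := Nat.cast_nonneg m
    linarith
  have hc : DifferentiableAt ℂ (fun s : ℂ => (2 * (Real.pi : ℂ)) ^ (-s)) z :=
    (differentiableAt_id.neg).const_cpow (Or.inl hpi)
  have hcos : DifferentiableAt ℂ (fun s : ℂ => Complex.cos ((Real.pi : ℂ) * s / 2)) z := by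
    fun_prop
  exact ((((differentiableAt_const (2 : ℂ)).mul hc).mul hG).mul hcos)

theorem mult_symm {ρ : ℂ} (h : riemannZeta ρ = 0) (him : ρ.im ≠ 0) :
    riemannZeta (1 - (starRingEnd ℂ) ρ) = 0 ∧ mult (1 - (starRingEnd ℂ) ρ) = mult ρ := by
  have hre := zero_re h him
  have h' : riemannZeta ((starRingEnd ℂ) ρ) = 0 := by rw [riemannZeta_conj, h, map_zero]
  set σ : ℂ := 1 - (starRingEnd ℂ) ρ with hσ
  have hσre : 0 < σ.re := by rw [hσ]; simp; linarith [hre.2]
  have hσim : σ.im ≠ 0 := by rw [hσ]; simpa using him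
  have hσ1 : σ ≠ 1 := by
    intro h2
    rw [h2] at hσim
    simp at hσim
  have hfe : riemannZeta (1 - σ) = X σ * riemannZeta σ := ZZ_zeta_one_sub σ hσre hσ1
  have hσc : 1 - σ = (starRingEnd ℂ) ρ := by rw [hσ]; ring
  have hXne := ZZ_X_ne_zero hσre hσim
  have hz : riemannZeta σ = 0 := by
    rw [hσc, h'] at hfe
    rcases mul_eq_zero.mp hfe.symm with h3 | h3
    · exact absurd h3 hXne
    · exact h3
  refine ⟨hz, ?_⟩
  have ha := Pool.Agent.helper6.LD.h30_analyticAt hz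
  have hXa := ZZ_X_analytic hσre
  have hX0 : analyticOrderAt X σ = 0 := hXa.analyticOrderAt_eq_zero.mpr hXne
  have hcomp : analyticOrderAt (riemannZeta ∘ fun s : ℂ => 1 - s) σ
      = analyticOrderAt riemannZeta (1 - σ) := by
    apply analyticOrderAt_comp_of_deriv_ne_zero (g := fun s : ℂ => 1 - s)
    · fun_prop
    · simp
  have hev : (riemannZeta ∘ fun s : ℂ => 1 - s) =ᶠ[nhds σ] X * riemannZeta := by
    have ho : IsOpen {z : ℂ | 0 < z.re} := isOpen_lt continuous_const Complex.continuous_re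
    filter_upwards [ho.mem_nhds hσre, isOpen_ne.mem_nhds hσ1] with z hz1 hz2
    exact ZZ_zeta_one_sub z hz1 hz2
  rw [analyticOrderAt_congr hev, analyticOrderAt_mul hXa ha, hX0, zero_add, hσc,
    ZZ_mult_conj h] at hcomp
  unfold mult analyticOrderNatAt
  rw [hcomp]

theorem count_eq {t H : ℝ} (ht : 0 ≤ t) : count t H = ∑ ρ ∈ zs t H, (mult ρ : ℝ) := by
  unfold count
  rw [finsum_mem_eq_finite_toFinset_sum _ (ZZ_finite ht)]
  unfold zs
  rw [dif_pos (ZZ_finite ht)]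

theorem half_eq {t H : ℝ} (ht : 0 ≤ t) :
    half t H = ∑ ρ ∈ zs t H, (mult ρ : ℝ) * max (ρ.re - 1 / 2) 0 := by
  unfold half
  have hfin : {ρ : ℂ | ρ ∈ win t H ∧ 1 / 2 < ρ.re}.Finite :=
    (ZZ_finite ht).subset (fun ρ hρ => hρ.1)
  rw [finsum_mem_eq_finite_toFinset_sum _ hfin]
  have hsub : hfin.toFinset ⊆ zs t H := by
    intro ρ hρ
    rw [Set.Finite.mem_toFinset] at hρ
    rw [mem_zs ht]
    exact hρ.1
  rw [← Finset.sum_subset hsub]
  · apply Finset.sum_congr rfl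
    intro ρ hρ
    rw [Set.Finite.mem_toFinset] at hρ
    rw [max_eq_left]
    linarith [hρ.2]
  · intro ρ hρ hnot
    rw [Set.Finite.mem_toFinset] at hnot
    rw [mem_zs ht] at hρ
    have : ¬ (1 / 2 < ρ.re) := fun hh => hnot ⟨hρ, hh⟩
    rw [max_eq_right (by linarith), mul_zero]

theorem ZZ_inv_mem {t H : ℝ} (ht : 0 ≤ t) {ρ : ℂ} (hρ : ρ ∈ zs t H) :
    (1 - (starRingEnd ℂ) ρ) ∈ zs t H := by
  rw [mem_zs ht] at hρ ⊢
  obtain ⟨h0, h1, h2⟩ := hρ
  have him : ρ.im ≠ 0 := (lt_of_le_of_lt ht h1).ne'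
  refine ⟨(mult_symm h0 him).1, ?_, ?_⟩ <;> simpa

theorem ZZ_mult_inv {t H : ℝ} (ht : 0 ≤ t) {ρ : ℂ} (hρ : ρ ∈ zs t H) :
    mult (1 - (starRingEnd ℂ) ρ) = mult ρ := by
  rw [mem_zs ht] at hρ
  obtain ⟨h0, h1, h2⟩ := hρ
  exact (mult_symm h0 (lt_of_le_of_lt ht h1).ne').2

theorem ZZ_inv_inv (ρ : ℂ) : (1 - (starRingEnd ℂ) (1 - (starRingEnd ℂ) ρ)) = ρ := by
  simp

/-- reflection of sums over the zeros of a window -/
theorem ZZ_sum_inv {t H : ℝ} (ht : 0 ≤ t) (f : ℂ → ℝ) :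
    ∑ ρ ∈ zs t H, (mult ρ : ℝ) * f (1 - (starRingEnd ℂ) ρ) = ∑ ρ ∈ zs t H, (mult ρ : ℝ) * f ρ := by
  refine Finset.sum_bij' (fun ρ _ => 1 - (starRingEnd ℂ) ρ) (fun ρ _ => 1 - (starRingEnd ℂ) ρ)
    (fun ρ hρ => ZZ_inv_mem ht hρ) (fun ρ hρ => ZZ_inv_mem ht hρ)
    (fun ρ _ => ZZ_inv_inv ρ) (fun ρ _ => ZZ_inv_inv ρ) ?_
  intro ρ hρ
  rw [ZZ_mult_inv ht hρ]

theorem total_eq {t H : ℝ} (ht : 0 ≤ t) : total t H = 2 * half t H := by
  have h1 : total t H = ∑ ρ ∈ zs t H, (mult ρ : ℝ) * |ρ.re - 1 / 2| := by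
    unfold total
    rw [finsum_mem_eq_finite_toFinset_sum _ (ZZ_finite ht)]
    unfold zs
    rw [dif_pos (ZZ_finite ht)]
  have h2 := ZZ_sum_inv (H := H) ht (fun ρ => max (ρ.re - 1 / 2) 0)
  rw [h1, half_eq ht, two_mul]
  nth_rewrite 2 [← h2]
  rw [← Finset.sum_add_distrib]
  apply Finset.sum_congr rfl
  intro ρ _
  rw [← mul_add]
  congr 1
  have e : (1 - (starRingEnd ℂ) ρ).re = 1 - ρ.re := by simp
  simp only [e]
  rcases le_total (ρ.re) (1 / 2) with hh | hh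
  · rw [abs_of_nonpos (by linarith), max_eq_right (by linarith), max_eq_left (by linarith)]
    ring
  · rw [abs_of_nonneg (by linarith), max_eq_left (by linarith), max_eq_right (by linarith)]
    ring

theorem sum_re {t H : ℝ} (ht : 0 ≤ t) :
    ∑ ρ ∈ zs t H, (mult ρ : ℝ) * ρ.re = count t H / 2 := by
  have h2 := ZZ_sum_inv (H := H) ht (fun ρ => ρ.re)
  have e : ∀ ρ : ℂ, (1 - (starRingEnd ℂ) ρ).re = 1 - ρ.re := by intro ρ; simp
  simp only [e] at h2
  rw [count_eq ht]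
  have h3 : ∑ ρ ∈ zs t H, (mult ρ : ℝ) * (1 - ρ.re)
      = ∑ ρ ∈ zs t H, (mult ρ : ℝ) - ∑ ρ ∈ zs t H, (mult ρ : ℝ) * ρ.re := by
    rw [← Finset.sum_sub_distrib]
    apply Finset.sum_congr rfl
    intro ρ _
    ring
  rw [h3] at h2
  linarith

end Pool.Agent.helper84.DM
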